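import Pool.Agent.W973.CES.Defs

/-!
# The verifier is polynomial-time computable
-/

set_option autoImplicit false

namespace Pool.Agent.W414.CES

open Pool.Agent.W973.CES Pool.Agent.NPC

theorem idx_key (x : ℕ) : ∀ (l : List ℕ) (k : ℕ),
    (match ((l.zipIdx k).filter (fun p => decide (p.1 = x))).head? with
      | none => l.length + k
      | Option.some b => b.2) = l.idxOf x + k := by
  intro l
  induction l with
  | nil => intro k; simp
  | cons b l ih =>
    intro k
    rw [List.zipIdx_cons, List.filter_cons]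
    by_cases h : b = x
    · subst h
      simp
    · have h1 : decide (b = x) = false := by simpa using h
      have h2 : (b == x) = false := by simpa using h
      have := ih (k + 1)
      simp only [h1, Bool.false_eq_true, if_false, List.idxOf_cons, h2, cond_false,
        List.length_cons]
      have e1 : l.length + 1 + k = l.length + (k + 1) := by ring
      have e2 : List.idxOf x l + 1 + k = List.idxOf x l + (k + 1) := by ring
      rw [e1, e2]
      exact this

section

variable {α : Type} [TEnc α]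

theorem idxOf {l : α → List ℕ} {x : α → ℕ} (hl : NPC.Poly l) (hx : NPC.Poly x) :
    NPC.Poly (fun a => (l a).idxOf (x a)) := by
  have h1 : NPC.Poly (fun a => ((l a).zipIdx.filter (fun p => decide (p.1 = x a))).head?) :=
    NPC.Poly.head? (NPC.Poly.filter (p := fun a (p : ℕ × ℕ) => decide (p.1 = x a)) (NPC.Poly.zipIdx hl)
      (NPC.Poly.decide_eq (NPC.Poly.fst (NPC.Poly.snd NPC.Poly.id)) (hx.comp (NPC.Poly.fst NPC.Poly.id))))
  refine (NPC.Poly.optCases (g := fun a => (l a).length) (h := fun _ b => b.2) h1 (NPC.Poly.length hl)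
    (NPC.Poly.snd (NPC.Poly.snd NPC.Poly.id))).congr fun a => ?_
  have key := idx_key (x a) (l a) 0
  generalize ((l a).zipIdx.filter (fun p => decide (p.1 = x a))).head? = o at key ⊢
  cases o with
  | none => simpa using key
  | some b => simpa using key

theorem valB_poly : NPC.Poly W973.CES.valB := by
  unfold W973.CES.valB
  refine NPC.Poly.and (NPC.Poly.decide_eq (NPC.Poly.length (NPC.Poly.snd NPC.Poly.id))
    (NPC.Poly.length (NPC.Poly.fst NPC.Poly.id))) ?_
  refine NPC.Poly.all (p := fun (I : Inst) (l : List ℕ) =>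
    decide (l.length = I.1.length) && (List.range I.1.length).all fun i => decide (i ∈ l))
    (NPC.Poly.append (NPC.Poly.fst NPC.Poly.id) (NPC.Poly.snd NPC.Poly.id)) ?_
  refine NPC.Poly.and (NPC.Poly.decide_eq (NPC.Poly.length (NPC.Poly.snd NPC.Poly.id))
    (NPC.Poly.length (NPC.Poly.fst (NPC.Poly.fst NPC.Poly.id)))) ?_
  refine NPC.Poly.all (p := fun (q : Inst × List ℕ) (i : ℕ) => decide (i ∈ q.2))
    (NPC.Poly.range_length (NPC.Poly.fst (NPC.Poly.fst NPC.Poly.id))) ?_
  exact NPC.Poly.decide_mem (NPC.Poly.snd NPC.Poly.id) (NPC.Poly.snd (NPC.Poly.fst NPC.Poly.id))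

theorem sideB_poly {n : α → ℕ} {L : α → List (List ℕ)} {p r : α → List ℕ} (hn : UPoly n)
    (hL : NPC.Poly L) (hp : NPC.Poly p) (hr : NPC.Poly r) :
    NPC.Poly (fun a => sideB (n a) (L a) (p a) (r a)) := by
  unfold sideB
  refine NPC.Poly.all (p := fun (a : α) (i : ℕ) => (List.range (n a)).all fun j =>
    !(decide (((L a).getD i []).idxOf ((p a).getD j 0) < ((L a).getD i []).idxOf ((p a).getD i 0)))
      || decide ((r a).getD j 0 < (r a).getD i 0)) hn.range ?_
  refine NPC.Poly.all (p := fun (q : α × ℕ) (j : ℕ) =>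
    !(decide (((L q.1).getD q.2 []).idxOf ((p q.1).getD j 0) <
      ((L q.1).getD q.2 []).idxOf ((p q.1).getD q.2 0)))
      || decide ((r q.1).getD j 0 < (r q.1).getD q.2 0)) (hn.comp (NPC.Poly.fst NPC.Poly.id)).range ?_
  have a1 : NPC.Poly (fun q : (α × ℕ) × ℕ => q.1.1) := NPC.Poly.fst (NPC.Poly.fst NPC.Poly.id)
  have a2 : NPC.Poly (fun q : (α × ℕ) × ℕ => q.1.2) := NPC.Poly.snd (NPC.Poly.fst NPC.Poly.id)
  have a3 : NPC.Poly (fun q : (α × ℕ) × ℕ => q.2) := NPC.Poly.snd NPC.Poly.id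
  have b1 : NPC.Poly (fun q : (α × ℕ) × ℕ => (L q.1.1).getD q.1.2 []) :=
    NPC.Poly.getD (hL.comp a1) a2 (NPC.Poly.const [])
  exact NPC.Poly.or (NPC.Poly.not (NPC.Poly.decide_lt
    (idxOf b1 (NPC.Poly.getD (hp.comp a1) a3 (NPC.Poly.const 0)))
    (idxOf b1 (NPC.Poly.getD (hp.comp a1) a2 (NPC.Poly.const 0)))))
    (NPC.Poly.decide_lt (NPC.Poly.getD (hr.comp a1) a3 (NPC.Poly.const 0))
      (NPC.Poly.getD (hr.comp a1) a2 (NPC.Poly.const 0)))

end

theorem pver : S_PVER := by
  unfold S_PVER verB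
  have hI : NPC.Poly (fun q : Inst × Cert => q.1) := NPC.Poly.fst NPC.Poly.id
  have hI1 : NPC.Poly (fun q : Inst × Cert => q.1.1) := NPC.Poly.fst hI
  have hI2 : NPC.Poly (fun q : Inst × Cert => q.1.2) := NPC.Poly.snd hI
  have hM : NPC.Poly (fun q : Inst × Cert => q.2.1) := NPC.Poly.fst (NPC.Poly.snd NPC.Poly.id)
  have hr : NPC.Poly (fun q : Inst × Cert => q.2.2.1) := NPC.Poly.fst (NPC.Poly.snd (NPC.Poly.snd NPC.Poly.id))
  have hs : NPC.Poly (fun q : Inst × Cert => q.2.2.2) := NPC.Poly.snd (NPC.Poly.snd (NPC.Poly.snd NPC.Poly.id))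
  have hn : UPoly (fun q : Inst × Cert => q.1.1.length) := UPoly.length hI1
  refine NPC.Poly.and (NPC.Poly.and (NPC.Poly.and (NPC.Poly.and (valB_poly.comp hI) ?_) ?_) ?_) ?_
  · exact NPC.Poly.decide_eq (NPC.Poly.length hM) (NPC.Poly.length hI1)
  · exact NPC.Poly.all (p := fun (q : Inst × Cert) (i : ℕ) => decide (i ∈ q.2.1)) hn.range
      (NPC.Poly.decide_mem (NPC.Poly.snd NPC.Poly.id) (hM.comp (NPC.Poly.fst NPC.Poly.id)))
  · exact sideB_poly hn hI1 hM hr
  · refine sideB_poly hn hI2 ?_ hs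
    exact NPC.Poly.map (F := fun (q : Inst × Cert) (j : ℕ) => q.2.1.idxOf j) hn.range
      (idxOf (hM.comp (NPC.Poly.fst NPC.Poly.id)) (NPC.Poly.snd NPC.Poly.id))

end Pool.Agent.W414.CES
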